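import Pool.Agent.U847.FD

/-!
# Furstenberg systems of aperiodic multiplicative functions with values `1` and `-1`: products over progressions of
# every length, and of two neighbouring lengths

Let `μ` be any Furstenberg system of any aperiodic multiplicative function with values `1` and `-1` and
`M_(k,H)(x)` the mean over `0 ≤ h < H` of the products `x(hd) x((h+1)d) ... x((h+k-1)d)` of `k ≥ 2` coordinates along a
progression with fixed difference `d`; for `H → ∞` it tends to the correlation in the ergodic component of `x` (for the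
`d`-th power of the shift). In a Bernoulli system, as in the question, it tends to zero. We prove for every `k ≥ 2` and
every `d ≥ 1`

`∫ |M_(k,H)| ≤ 1/2 + 1/H`,   `∫ M_(k,H)^2 ≤ 1/3 + 3k/H`,   `∫ |M_(k,H) ± M_(k+2,H)| ≤ 5/6 + 4/H`,

and `|∫ x(0) x(d) ... x((k-1)d)| + |∫ x(0) x(d) ... x((k+1)d)| ≤ 5/6`.

The two point theorem for pairs of multiplicative functions with values `1` and `-1` one of which is aperiodic, at
almost all scales, is `Pool.Agent.R512.P.pairMW` (starting files).
-/

set_option autoImplicit false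

namespace Pool.Agent.Results.MP_4a7640_nt.NeighbouringLengths

open MeasureTheory Filter Topology Finset

/-- the numbers `-1`, `0`, `1` -/
abbrev Val : Type := ({-1, 0, 1} : Set ℝ)

/-- the space of two-sided sequences -/
abbrev X : Type := ℤ → Val

/-- the `n`-th power of the shift -/
def shift (n : ℤ) (x : X) : X := fun k => x (k + n)

/-- the sequence of the values `f n`, `n ≥ 1`, extended by zero -/
noncomputable def seq (f : ℕ → Val) : X := fun n => if 1 ≤ n then f n.toNat else ⟨0, by simp⟩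

/-- `μ` is a Furstenberg system of `f`: a weak-star limit, along some sequence `N j → ∞`, of the
logarithmic averages of the point masses at the shifts of the sequence of values of `f` -/
def IsFurstenbergSystem (f : ℕ → Val) (μ : Measure X) : Prop :=
  IsProbabilityMeasure μ ∧ ∃ N : ℕ → ℕ, Tendsto N atTop atTop ∧ ∀ φ : X → ℝ, Continuous φ →
    Tendsto (fun j => (1 / Real.log (N j : ℝ)) * ∑ n ∈ Icc 1 (N j), (1 / (n : ℝ)) * φ (shift (n : ℤ) (seq f)))
      atTop (𝓝 (∫ x, φ x ∂μ))

/-- multiplicative functions with values `1` and `-1` -/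
def IsMult (f : ℕ → Val) : Prop := (∀ n : ℕ, 1 ≤ n → (f n : ℝ) ≠ 0) ∧
  ∀ m n : ℕ, 1 ≤ m → 1 ≤ n → Nat.Coprime m n → (f (m * n) : ℝ) = f m * f n

/-- the distance to every Dirichlet character is infinite -/
def Aperiodic (f : ℕ → Val) : Prop := ∀ Q : ℕ, 0 < Q → ∀ χ : DirichletCharacter ℂ Q,
  ¬ Summable (fun p : ℕ => if p.Prime then
    (1 - (((f p : ℝ) : ℂ) * (starRingEnd ℂ) (χ (p : ZMod Q))).re) / (p : ℝ) else 0)

/-- the product of the coordinates `x(a)`, `x(a + d)`, ..., `x(a + (k - 1) d)` -/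
noncomputable def prodX (d k a : ℕ) (x : X) : ℝ := ∏ i ∈ range k, (x ((a + i * d : ℕ) : ℤ) : ℝ)

/-- the local mean: the mean over `0 ≤ h < H` of the products over the progressions `h d, (h + 1) d, ...,
(h + k - 1) d` -/
noncomputable def M (d k H : ℕ) (x : X) : ℝ := (∑ h ∈ range H, prodX d k (h * d) x) / H

/-- the sign function with the values of `f` -/
noncomputable def g (f : ℕ → Val) (n : ℕ) : ℤ := if n = 0 then 1 else if (f n : ℝ) = -1 then -1 else 1

lemma val_cases {f : ℕ → Val} (hf : IsMult f) {n : ℕ} (hn : 1 ≤ n) : (f n : ℝ) = 1 ∨ (f n : ℝ) = -1 := by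
  have h := (f n).2
  simp only [Set.mem_insert_iff, Set.mem_singleton_iff] at h
  rcases h with h | h | h
  · right; exact h
  · exact absurd h (hf.1 n hn)
  · left; exact h

lemma g_val {f : ℕ → Val} (hf : IsMult f) {n : ℕ} (hn : 1 ≤ n) : (g f n : ℝ) = f n := by
  unfold g
  rw [if_neg (by omega)]
  rcases val_cases hf hn with h | h
  · rw [if_neg (by rw [h]; norm_num), h]
    norm_num
  · rw [if_pos h, h]
    norm_num

lemma g_ms {f : ℕ → Val} (hf : IsMult f) : Pool.Agent.R512.P.MS (g f) := by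
  refine ⟨fun n hn => ?_, fun m n hm hn hmn => ?_⟩
  · unfold g
    split_ifs
    · left; rfl
    · right; rfl
    · left; rfl
  · have h1 : (g f (m * n) : ℝ) = g f m * g f n := by
      rw [g_val hf hm, g_val hf hn, g_val hf (Nat.mul_pos hm hn), hf.2 m n hm hn hmn]
    exact_mod_cast h1

lemma g_np {f : ℕ → Val} (hf : IsMult f) (ha : Aperiodic f) : Pool.Agent.R512.G.NoReal (fun n => (g f n : ℝ)) := by
  intro q χ hq _ hs
  apply ha q hq χ
  have h1 : Summable (fun p : Nat.Primes => (fun p : ℕ => if p.Prime then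
    (1 - (((f p : ℝ) : ℂ) * (starRingEnd ℂ) (χ (p : ZMod q))).re) / (p : ℝ) else 0) (p : ℕ)) := by
    refine hs.congr fun p => ?_
    simp only
    rw [if_pos p.2, Complex.re_ofReal_mul, Complex.conj_re, g_val hf p.2.pos]
  exact (Function.Injective.summable_iff (g := fun p : Nat.Primes => (p : ℕ))
    (f := fun p : ℕ => if p.Prime then
    (1 - (((f p : ℝ) : ℂ) * (starRingEnd ℂ) (χ (p : ZMod q))).re) / (p : ℝ) else 0)
    Subtype.val_injective (fun p hp => by
      rw [if_neg]
      intro hp'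
      exact hp ⟨⟨p, hp'⟩, rfl⟩)).1 h1

lemma g_pm (f : ℕ → Val) : Pool.Agent.R509.TT.Pm (fun n => (g f n : ℝ)) := by
  intro n
  simp only
  unfold g
  split_ifs <;> norm_num

open Pool.Agent.U847.NL (cls T)
open Pool.Agent.U847.FA (P V Two T_Icc)

lemma prodX_seq {f : ℕ → Val} (hf : IsMult f) (d k a : ℕ) {n : ℕ} (hn : 1 ≤ n) :
    prodX d k a (shift (n : ℤ) (seq f)) = P (fun n => (g f n : ℝ)) d k (n + a) := by
  unfold prodX P
  apply prod_congr rfl
  intro i _
  unfold shift seq
  rw [if_pos (by omega)]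
  beta_reduce
  rw [g_val hf (by omega)]
  congr 2
  omega

lemma M_seq {f : ℕ → Val} (hf : IsMult f) (d k H : ℕ) {n : ℕ} (hn : 1 ≤ n) :
    M d k H (shift (n : ℤ) (seq f)) = V (fun n => (g f n : ℝ)) d k H n / H := by
  unfold M V
  congr 1
  apply sum_congr rfl
  intro h _
  rw [prodX_seq hf d k _ hn]

lemma cont_prodX (d k a : ℕ) : Continuous (prodX d k a) :=
  continuous_finsetProd _ fun _ _ => continuous_subtype_val.comp (continuous_apply _)

lemma cont_M (d k H : ℕ) : Continuous (M d k H) :=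
  (continuous_finsetSum _ fun _ _ => cont_prodX d k _).div_const _

/-- from almost all scales to Furstenberg systems -/
lemma transfer {f : ℕ → Val} {μ : Measure X} (hμ : IsFurstenbergSystem f μ) {E : Set ℕ}
    (hE : Pool.Agent.Y958.U.LZ E) (φ : X → ℝ) (hφ : Continuous φ) (F : ℕ → ℝ)
    (hF : ∀ n : ℕ, 1 ≤ n → φ (shift (n : ℤ) (seq f)) = F n) (hF2 : ∀ n, |F n| ≤ 2) (κ : ℝ) (hκ : 0 ≤ κ)
    (h : ∀ ε : ℝ, 0 < ε → ∃ N₀ : ℕ, ∀ N : ℕ, N₀ ≤ N → N ∉ E → T (cls 1 0) F N ≤ κ * N + ε * N) :
    ∫ x, φ x ∂μ ≤ κ := by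
  obtain ⟨hprob, N, hN, hlim⟩ := hμ
  have h1 := hlim φ hφ
  apply le_of_forall_pos_le_add
  intro ε hε
  obtain ⟨N₀, h2⟩ := h (ε / 4) (by positivity)
  obtain ⟨K, hK⟩ := exists_nat_ge (16 / ε)
  obtain ⟨N₁, h3⟩ := Pool.Agent.U847.FA.log_mean hE F (fun n => (le_abs_self _).trans (hF2 n)) (κ + ε / 2) (ε / 2)
    (by positivity) (by positivity) ⟨N₀ + K, fun n hn hnE => by
      have h4 := h2 n (by omega) hnE
      have h5 := T_Icc (cls 1 0) F n 2 (fun m => by
        rw [abs_mul]
        have e1 := Pool.Agent.U847.FA.cls_abs 1 0 m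
        have e2 := hF2 m
        calc |cls 1 0 m| * |F m| ≤ 1 * 2 := mul_le_mul e1 e2 (abs_nonneg _) zero_le_one
          _ = 2 := one_mul _)
      have h6 : ∑ m ∈ Icc 1 n, cls 1 0 m * F m = ∑ m ∈ Icc 1 n, F m := by
        apply sum_congr rfl
        intro m _
        unfold cls
        rw [if_pos (Nat.mod_one m), one_mul]
      rw [h6] at h5
      have h7 := (abs_le.1 h5).2
      have h8 : 16 / ε ≤ n := hK.trans (by exact_mod_cast (by omega : K ≤ n))
      rw [div_le_iff₀ hε] at h8
      linarith⟩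
  refine le_of_tendsto h1 ?_
  have h4 := hN.eventually_ge_atTop (N₁ + 2)
  filter_upwards [h4] with j hj
  have h5 := h3 (N j) (by omega)
  have h6 : ∑ n ∈ Icc 1 (N j), 1 / (n : ℝ) * φ (shift (n : ℤ) (seq f)) = ∑ n ∈ Icc 1 (N j), F n / n := by
    apply sum_congr rfl
    intro n hn
    rw [hF n (mem_Icc.1 hn).1]
    ring
  rw [h6]
  have h7 : 0 < Real.log (N j) := Real.log_pos (by exact_mod_cast (by omega : 1 < N j))
  rw [one_div, inv_mul_le_iff₀ h7]
  linarith

lemma V_le (f : ℕ → Val) (d k H n : ℕ) (hH : 1 ≤ H) : |V (fun n => (g f n : ℝ)) d k H n / H| ≤ 1 := by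
  have hH0 : (0 : ℝ) < H := by exact_mod_cast hH
  rw [abs_div, abs_of_pos hH0, div_le_one hH0]
  unfold V
  refine (abs_sum_le_sum_abs _ _).trans ((sum_le_sum (g := fun _ => (1 : ℝ)) fun h _ => ?_).trans (le_of_eq (by simp)))
  exact ((Pool.Agent.U847.FA.P_pm (g_pm f) d k).abs _).le

lemma T_one_le (N : ℕ) : T (cls 1 0) (fun _ => 1) N = N := by
  unfold T cls
  simp [Nat.mod_one]

/-- Let `f` be an aperiodic multiplicative function with values `1` and `-1` and `μ` a Furstenberg system of `f`. For all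
`k ≥ 2` and `d ≥ 1`:
(1) `∫ |M_(k,H)| dμ ≤ 1/2 + 1/H` for all `H ≥ 1`;
(2) `∫ M_(k,H)^2 dμ ≤ 1/3 + 3k/H` for all `H ≥ 1`;
(3) `∫ |M_(k,H) + M_(k+2,H)| dμ ≤ 5/6 + 4/H` and `∫ |M_(k,H) - M_(k+2,H)| dμ ≤ 5/6 + 4/H` for all `H ≥ 1`;
(4) `|∫ x(0) x(d) ... x((k-1)d) dμ| + |∫ x(0) x(d) ... x((k+1)d) dμ| ≤ 5/6`. -/
theorem result (f : ℕ → Val) (hf : IsMult f) (ha : Aperiodic f) (μ : Measure X) (hμ : IsFurstenbergSystem f μ)
    (k d : ℕ) (hk : 2 ≤ k) (hd : 1 ≤ d) :
    (∀ H : ℕ, 1 ≤ H → ∫ x, |M d k H x| ∂μ ≤ 1 / 2 + 1 / H) ∧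
    (∀ H : ℕ, 1 ≤ H → ∫ x, M d k H x ^ 2 ∂μ ≤ 1 / 3 + 3 * k / H) ∧
    (∀ H : ℕ, 1 ≤ H → ∫ x, |M d k H x + M d (k + 2) H x| ∂μ ≤ 5 / 6 + 4 / H ∧
      ∫ x, |M d k H x - M d (k + 2) H x| ∂μ ≤ 5 / 6 + 4 / H) ∧
    |∫ x, prodX d k 0 x ∂μ| + |∫ x, prodX d (k + 2) 0 x ∂μ| ≤ 5 / 6 := by
  have hprob : IsProbabilityMeasure μ := hμ.1
  obtain ⟨E, hE, hTwo⟩ := Pool.Agent.U847.FA.two_ms (g_ms hf) (g_np hf ha) (by left; rfl)
  set G : ℕ → ℝ := fun n => (g f n : ℝ) with hG
  have hpm : Pool.Agent.R509.TT.Pm G := g_pm f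
  have hpair : ∀ H : ℕ, 1 ≤ H → ∀ τ : ℝ, (τ = 1 ∨ τ = -1) →
      ∫ x, |M d k H x + τ * M d (k + 2) H x| ∂μ ≤ 5 / 6 + 4 / H := by
    intro H hH τ hτ
    have hH0 : (0 : ℝ) < H := by exact_mod_cast hH
    have hτ1 : |τ| = 1 := by rcases hτ with rfl | rfl <;> norm_num
    apply transfer hμ hE (fun x => |M d k H x + τ * M d (k + 2) H x|)
      ((cont_M d k H).add (continuous_const.mul (cont_M d (k + 2) H))).abs
      (fun n => |V G d k H n / H + τ * (V G d (k + 2) H n / H)|)
    · intro n hn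
      simp only [M_seq hf _ _ _ hn]
      rfl
    · intro n
      rw [abs_abs]
      refine (abs_add_le _ _).trans ?_
      rw [abs_mul, hτ1, one_mul]
      have e1 := V_le f d k H n hH
      have e2 := V_le f d (k + 2) H n hH
      linarith
    · positivity
    · intro ε hε
      obtain ⟨N₀, h⟩ := Pool.Agent.U847.FA.pair_mean hpm hTwo k d 1 0 H hk hd le_rfl (ε * H) (by positivity)
      refine ⟨N₀, fun N hN hNE => ?_⟩
      have h1 := h N hN hNE τ hτ
      rw [T_one_le] at h1
      have h2 : T (cls 1 0) (fun n => |V G d k H n / H + τ * (V G d (k + 2) H n / H)|) N =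
          T (cls 1 0) (fun n => |V G d k H n + τ * V G d (k + 2) H n|) N / H := by
        unfold T
        rw [sum_div]
        apply sum_congr rfl
        intro n _
        beta_reduce
        rw [← mul_div_assoc, ← add_div, abs_div, abs_of_pos hH0, mul_div_assoc]
      rw [h2, div_le_iff₀ hH0]
      refine h1.trans (le_of_eq ?_)
      field_simp
  have hmom : ∀ H : ℕ, 1 ≤ H → ∫ x, |M d k H x| ∂μ ≤ 1 / 2 + 1 / H ∧ ∫ x, M d k H x ^ 2 ∂μ ≤ 1 / 3 + 3 * k / H := by
    intro H hH
    have hH0 : (0 : ℝ) < H := by exact_mod_cast hH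
    constructor
    · apply transfer hμ hE (fun x => |M d k H x|) (cont_M d k H).abs (fun n => |V G d k H n / H|)
      · intro n hn
        simp only [M_seq hf _ _ _ hn]
        rfl
      · intro n
        rw [abs_abs]
        have e1 := V_le f d k H n hH
        linarith
      · positivity
      · intro ε hε
        obtain ⟨N₀, h⟩ := Pool.Agent.U847.FA.moments hpm hTwo k d 1 0 H hk hd le_rfl hH (ε * H) (by positivity)
        refine ⟨N₀, fun N hN hNE => ?_⟩
        have h1 := (h N hN hNE).1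
        rw [T_one_le] at h1
        have h2 : T (cls 1 0) (fun n => |V G d k H n / H|) N = T (cls 1 0) (fun n => |V G d k H n|) N / H := by
          unfold T
          rw [sum_div]
          apply sum_congr rfl
          intro n _
          beta_reduce
          rw [abs_div, abs_of_pos hH0, mul_div_assoc]
        rw [h2, div_le_iff₀ hH0]
        refine h1.trans (le_of_eq ?_)
        field_simp
    · apply transfer hμ hE (fun x => M d k H x ^ 2) ((cont_M d k H).pow 2) (fun n => (V G d k H n / H) ^ 2)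
      · intro n hn
        simp only [M_seq hf _ _ _ hn]
        rfl
      · intro n
        rw [abs_pow]
        have e1 := V_le f d k H n hH
        have e2 := pow_le_one₀ (n := 2) (abs_nonneg _) e1
        exact e2.trans (by norm_num)
      · positivity
      · intro ε hε
        obtain ⟨N₀, h⟩ := Pool.Agent.U847.FA.moments hpm hTwo k d 1 0 H hk hd le_rfl hH (ε * H ^ 2) (by positivity)
        refine ⟨N₀, fun N hN hNE => ?_⟩
        have h1 := (h N hN hNE).2
        rw [T_one_le] at h1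
        have h2 : T (cls 1 0) (fun n => (V G d k H n / H) ^ 2) N = T (cls 1 0) (fun n => V G d k H n ^ 2) N / H ^ 2 := by
          unfold T
          rw [sum_div]
          apply sum_congr rfl
          intro n _
          beta_reduce
          rw [div_pow, mul_div_assoc]
        rw [h2, div_le_iff₀ (by positivity)]
        refine h1.trans (le_of_eq ?_)
        field_simp
  refine ⟨fun H hH => (hmom H hH).1, fun H hH => (hmom H hH).2, fun H hH => ⟨?_, ?_⟩, ?_⟩
  · have := hpair H hH 1 (Or.inl rfl)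
    simpa only [one_mul] using this
  · have := hpair H hH (-1) (Or.inr rfl)
    simpa only [neg_one_mul, ← sub_eq_add_neg] using this
  · have hint : ∀ k : ℕ, Integrable (prodX d k 0) μ := by
      intro k
      refine Integrable.of_bound (cont_prodX d k 0).measurable.aestronglyMeasurable 1 (Eventually.of_forall fun x => ?_)
      unfold prodX
      rw [Real.norm_eq_abs, abs_prod]
      apply prod_le_one (fun i _ => abs_nonneg _)
      intro i _
      have h := (x ((0 + i * d : ℕ) : ℤ)).2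
      simp only [Set.mem_insert_iff, Set.mem_singleton_iff] at h
      rcases h with h | h | h <;> rw [h] <;> simp
    have hmain : ∀ σ τ : ℝ, (σ = 1 ∨ σ = -1) → (τ = 1 ∨ τ = -1) →
        σ * ∫ x, prodX d k 0 x ∂μ + τ * ∫ x, prodX d (k + 2) 0 x ∂μ ≤ 5 / 6 := by
      intro σ τ hσ hτ
      have hσ1 : |σ| = 1 := by rcases hσ with rfl | rfl <;> norm_num
      have hτ1 : |τ| = 1 := by rcases hτ with rfl | rfl <;> norm_num
      rw [← integral_const_mul, ← integral_const_mul, ← integral_add ((hint k).const_mul σ) ((hint (k + 2)).const_mul τ)]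
      apply transfer hμ hE (fun x => σ * prodX d k 0 x + τ * prodX d (k + 2) 0 x)
        ((continuous_const.mul (cont_prodX d k 0)).add (continuous_const.mul (cont_prodX d (k + 2) 0)))
        (fun n => σ * P G d k n + τ * P G d (k + 2) n)
      · intro n hn
        simp only [prodX_seq hf _ _ _ hn]
        rfl
      · intro n
        refine (abs_add_le _ _).trans ?_
        rw [abs_mul, abs_mul, hσ1, hτ1, (Pool.Agent.U847.FA.P_pm hpm d k).abs n,
          (Pool.Agent.U847.FA.P_pm hpm d (k + 2)).abs n]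
        norm_num
      · norm_num
      · intro ε hε
        obtain ⟨N₀, h⟩ := Pool.Agent.U847.FA.glob hpm hTwo k d 1 0 hk hd le_rfl (one_dvd d) ε hε
        refine ⟨N₀, fun N hN hNE => ?_⟩
        have h1 := h N hN hNE
        rw [T_one_le] at h1
        have h2 : T (cls 1 0) (fun n => σ * P G d k n + τ * P G d (k + 2) n) N =
            σ * T (cls 1 0) (P G d k) N + τ * T (cls 1 0) (P G d (k + 2)) N := by
          unfold T
          rw [mul_sum, mul_sum, ← sum_add_distrib]
          apply sum_congr rfl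
          intro n _
          ring
        rw [h2]
        have h3 : σ * T (cls 1 0) (P G d k) N ≤ |T (cls 1 0) (P G d k) N| := by
          refine (le_abs_self _).trans ?_
          rw [abs_mul, hσ1, one_mul]
        have h4 : τ * T (cls 1 0) (P G d (k + 2)) N ≤ |T (cls 1 0) (P G d (k + 2)) N| := by
          refine (le_abs_self _).trans ?_
          rw [abs_mul, hτ1, one_mul]
        linarith
    have a1 := hmain 1 1 (Or.inl rfl) (Or.inl rfl)
    have a2 := hmain 1 (-1) (Or.inl rfl) (Or.inr rfl)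
    have a3 := hmain (-1) 1 (Or.inr rfl) (Or.inl rfl)
    have a4 := hmain (-1) (-1) (Or.inr rfl) (Or.inr rfl)
    rcases abs_cases (∫ x, prodX d k 0 x ∂μ) with ⟨e1, _⟩ | ⟨e1, _⟩ <;>
      rcases abs_cases (∫ x, prodX d (k + 2) 0 x ∂μ) with ⟨e2, _⟩ | ⟨e2, _⟩ <;> rw [e1, e2] <;> linarith

end Pool.Agent.Results.MP_4a7640_nt.NeighbouringLengths
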