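import Mathlib
import Pool.Agent.U496.PS.Corr
import Pool.Agent.R512.G.Fin
import Pool.Agent.U488.HP.Pat

/-!
# Pushdown machines make a positive proportion of errors on every aperiodic multiplicative function with values `±1`

A deterministic pushdown machine (finitely many states, an unbounded stack, any number of silent moves) reads the
sequence and predicts the next value. On the fair Bernoulli sequences, which are what Q1 expects (for completely
multiplicative `f`), every predictor whatever has the error rate `1/2`. Here we prove that a given machine has an error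
rate at least `c > 0`, with the same `c` for all aperiodic multiplicative functions with values `±1`.

Proof. (1) `U496.PS.changes_le`: for every pushdown machine there are a distance `ρ` and a constant `K` such that every
sequence over `B` letters on which the machine makes `E` errors has at most `K (E + |s₀| + 1)` changes at the distance
`ρ`. This is a statement on all prefixes, so that summation by parts gives the same for the weights `1 / n`
(`U496.PS.transfer`). (2) The number of the changes of `f` at the distance `ρ` is `(1 - C) / 2` times `N`, where `C` is the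
two-point correlation, which is at most `1 - c` in logarithmic averages and at almost all scales (starting library
`R512.G`), and at every scale if `f` is completely multiplicative (library `U488.HP`).
-/

set_option autoImplicit false

namespace Pool.Agent.Results.MP_4a7640_nt.PushdownErrorRates

open Finset
open Pool.Agent.U364.PD (Machine errors)
open Pool.Agent.U496.PS (logErrors lcard)

/-- multiplicative functions with the values `1` and `-1` -/
def IsMult (f : ℕ → ℤ) : Prop := (∀ n : ℕ, 1 ≤ n → f n = 1 ∨ f n = -1) ∧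
  ∀ m n : ℕ, 1 ≤ m → 1 ≤ n → Nat.Coprime m n → f (m * n) = f m * f n

/-- the distance to every Dirichlet character is infinite -/
def Aperiodic (f : ℕ → ℤ) : Prop := ∀ q : ℕ, 0 < q → ∀ χ : DirichletCharacter ℂ q,
  ¬ Summable (fun p : ℕ => if p.Prime then
    (1 - (((f p : ℤ) : ℂ) * (starRingEnd ℂ) (χ (p : ZMod q))).re) / (p : ℝ) else 0)

open Classical in
/-- logarithmic density zero -/
def LogDensityZero (E : Set ℕ) : Prop := Filter.Tendsto
  (fun X : ℕ => (∑ n ∈ Icc 1 X, if n ∈ E then (1 : ℝ) / n else 0) / Real.log X) Filter.atTop (nhds 0)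

/-- the function with the value `0` at `0` -/
def ext (f : ℕ → ℤ) : ℕ → ℤ := fun n => if n = 0 then 0 else f n

lemma ext_pos (f : ℕ → ℤ) {n : ℕ} (hn : 1 ≤ n) : ext f n = f n := by
  unfold ext
  rw [if_neg (by omega)]

lemma noReal {f : ℕ → ℤ} (h : Aperiodic f) : Pool.Agent.R512.G.NoReal (fun n => (ext f n : ℝ)) := by
  intro q χ hq _ hs
  apply h q hq χ
  have h1 : Summable (fun p : Nat.Primes => (fun p : ℕ => if p.Prime then
    (1 - (((f p : ℤ) : ℂ) * (starRingEnd ℂ) (χ (p : ZMod q))).re) / (p : ℝ) else 0) (p : ℕ)) := by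
    refine hs.congr fun p => ?_
    simp only
    rw [if_pos p.2, ext_pos f p.2.one_le]
    have e : ((f (p : ℕ) : ℤ) : ℂ) = (((f (p : ℕ) : ℤ) : ℝ) : ℂ) := by norm_cast
    rw [e, Complex.re_ofReal_mul, Complex.conj_re]
  have h2 := (Function.Injective.summable_iff (g := fun p : Nat.Primes => (p : ℕ))
    (f := fun p : ℕ => if p.Prime then
    (1 - (((f p : ℤ) : ℂ) * (starRingEnd ℂ) (χ (p : ZMod q))).re) / (p : ℝ) else 0)
    Subtype.val_injective (fun p hp => by
      rw [if_neg]
      intro hp'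
      exact hp ⟨⟨p, hp'⟩, rfl⟩)).1
  exact h2 h1

lemma ext_bm {f : ℕ → ℤ} (hf : IsMult f) : Pool.Agent.Y958.E.BM (fun n => ((ext f n : ℝ) : ℂ)) := by
  refine ⟨fun n => ?_, fun m n hm hn hc => ?_⟩
  · rw [Complex.norm_real, Real.norm_eq_abs]
    rcases Nat.eq_zero_or_pos n with h | h
    · rw [h]
      simp [ext]
    · rw [ext_pos f h]
      rcases hf.1 n h with h1 | h1 <;> rw [h1] <;> norm_num
  · show ((ext f (m * n) : ℝ) : ℂ) = ((ext f m : ℝ) : ℂ) * ((ext f n : ℝ) : ℂ)
    rw [ext_pos f (Nat.mul_pos hm hn), ext_pos f hm, ext_pos f hn, hf.2 m n hm hn hc]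
    push_cast
    ring

lemma sum_ext (f : ℕ → ℤ) (ρ N : ℕ) :
    ∑ n ∈ Icc 1 N, (ext f n : ℝ) * ext f (n + ρ) = ∑ n ∈ Icc 1 N, (f n : ℝ) * f (n + ρ) := by
  refine sum_congr rfl fun n hn => ?_
  have h1 := (mem_Icc.1 hn).1
  rw [ext_pos f h1, ext_pos f (by omega)]

/-- the corollary of the library for the two-point correlations -/
lemma gap : ∃ c : ℝ, 0 < c ∧ c < 1 ∧ ∀ f : ℕ → ℤ, IsMult f → Aperiodic f → ∀ ρ : ℕ, 1 ≤ ρ →
    ∃ (E : Set ℕ) (N₀ : ℕ), LogDensityZero E ∧ ∀ N : ℕ, N₀ ≤ N →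
      (N ∉ E → ∑ n ∈ Icc 1 N, (f n : ℝ) * f (n + ρ) ≤ (1 - c) * N) ∧
      ∑ n ∈ Icc 1 N, (f n : ℝ) * f (n + ρ) / n ≤ (1 - c) * ∑ n ∈ Icc 1 N, 1 / (n : ℝ) + c / 2 * Real.log N := by
  obtain ⟨c, hc0, hc1, hmain⟩ := Pool.Agent.R512.G.finR
  refine ⟨c 2 / 2, by linarith [hc0 2], by linarith [hc1 2], fun f hf ha ρ hρ => ?_⟩
  obtain ⟨E, hE, h1⟩ := hmain 2 (fun _ => 1) ![0, ρ] (fun _ => le_rfl) (by
    intro i j hij
    fin_cases i <;> fin_cases j
    · exact absurd rfl hij
    · simp; omega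
    · simp; omega
    · exact absurd rfl hij) (fun _ n => ((ext f n : ℝ) : ℂ)) (fun _ => ext_bm hf) 0
    (Or.inl ⟨fun n => (ext f n : ℝ), fun n => rfl, noReal ha⟩)
  obtain ⟨N₀, h2⟩ := h1 (c 2 / 4) (by linarith [hc0 2])
  refine ⟨E, N₀, hE, fun N hN => ?_⟩
  obtain ⟨h3, h4⟩ := h2 N hN
  have habs : ∀ n ∈ Icc 1 N, ‖((ext f n : ℝ) : ℂ)‖ = 1 := by
    intro n hn
    rw [Complex.norm_real, Real.norm_eq_abs, ext_pos f (mem_Icc.1 hn).1]
    rcases hf.1 n (mem_Icc.1 hn).1 with h | h <;> rw [h] <;> norm_num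
  have hprod : ∀ n : ℕ, ∏ i : Fin 2, ((ext f (1 * n + (![0, ρ] : Fin 2 → ℕ) i) : ℝ) : ℂ) =
      (((ext f n : ℝ) * ext f (n + ρ) : ℝ) : ℂ) := by
    intro n
    rw [Fin.prod_univ_two]
    simp
  have e1 : ∑ n ∈ Icc 1 N, ‖((ext f (1 * n + (![0, ρ] : Fin 2 → ℕ) 0) : ℝ) : ℂ)‖ = N := by
    rw [sum_congr rfl (g := fun _ => (1 : ℝ)) (fun n hn => by
      have := habs n hn
      simpa using this)]
    simp
  have e2 : ∑ n ∈ Icc 1 N, ‖((ext f (1 * n + (![0, ρ] : Fin 2 → ℕ) 0) : ℝ) : ℂ)‖ / (n : ℝ) =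
      ∑ n ∈ Icc 1 N, 1 / (n : ℝ) := by
    refine sum_congr rfl fun n hn => ?_
    have := habs n hn
    congr 1
    simpa using this
  constructor
  · intro hNE
    have h5 := h3 hNE
    rw [e1] at h5
    have h6 : ∑ n ∈ Icc 1 N, ∏ i : Fin 2, ((ext f (1 * n + (![0, ρ] : Fin 2 → ℕ) i) : ℝ) : ℂ) =
        ((∑ n ∈ Icc 1 N, (ext f n : ℝ) * ext f (n + ρ) : ℝ) : ℂ) := by
      rw [Complex.ofReal_sum]
      exact sum_congr rfl fun n _ => hprod n
    have h7 := le_abs_self (∑ n ∈ Icc 1 N, (ext f n : ℝ) * ext f (n + ρ))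
    rw [← Real.norm_eq_abs, ← Complex.norm_real, ← h6] at h7
    have h8 := h7.trans h5
    rw [sum_ext] at h8
    have hN0 : (0 : ℝ) ≤ N := Nat.cast_nonneg N
    nlinarith [hc0 2]
  · rw [e2] at h4
    have h6 : ∑ n ∈ Icc 1 N, (∏ i : Fin 2, ((ext f (1 * n + (![0, ρ] : Fin 2 → ℕ) i) : ℝ) : ℂ)) / (n : ℂ) =
        ((∑ n ∈ Icc 1 N, (f n : ℝ) * f (n + ρ) / n : ℝ) : ℂ) := by
      rw [Complex.ofReal_sum]
      refine sum_congr rfl fun n hn => ?_
      have h1 := (mem_Icc.1 hn).1
      rw [hprod n, ext_pos f h1, ext_pos f (by omega)]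
      push_cast
      ring
    have h7 := le_abs_self (∑ n ∈ Icc 1 N, (f n : ℝ) * f (n + ρ) / n)
    rw [← Real.norm_eq_abs, ← Complex.norm_real, ← h6] at h7
    have h8 := h7.trans h4
    have hH : (0 : ℝ) ≤ ∑ n ∈ Icc 1 N, 1 / (n : ℝ) := sum_nonneg fun _ _ => by positivity
    nlinarith [hc0 2]

open Classical in
/-- **Pushdown machines and aperiodic multiplicative functions.** Let `M` be a deterministic pushdown machine with finitely
many states and stack symbols (silent moves are allowed), and `B` a natural number.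

(1) There is `c > 0`, depending on `M` and `B` only, such that for every aperiodic multiplicative `f` with values `±1` there
are a set `E` of logarithmic density zero and `N₀` such that for all sequences `a` of integers in `[0, B)`, all maps `φ`, all
initial states, all initial stacks `s₀` and all `N ≥ N₀`: the number of the `n ∈ [1, N]` with `φ (a n) ≠ f n` plus the number
of the errors of `M` on `a 1, …, a N` plus `|s₀|` is at least `c N` if `N ∉ E`, and with the weights `1 / n` it is at least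
`c log N` for all `N ≥ N₀`.
(2) If `f` is moreover completely multiplicative, the first bound holds for all `N ≥ N₀`, with a `c > 0` which may depend
on `f` too. -/
theorem result {Q Γ : Type} [Finite Q] [Finite Γ] (M : Machine Q Γ) (B : ℕ) :
    (∃ c : ℝ, 0 < c ∧ ∀ f : ℕ → ℤ, IsMult f → Aperiodic f → ∃ (E : Set ℕ) (N₀ : ℕ), LogDensityZero E ∧
      ∀ a : ℕ → ℤ, (∀ n, 0 ≤ a n ∧ a n < B) → ∀ (φ : ℤ → ℤ) (q₀ : Q) (s₀ : List Γ) (N : ℕ), N₀ ≤ N →
        (N ∉ E → c * N ≤ ((range N).filter fun n => φ (a (n + 1)) ≠ f (n + 1)).card +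
          errors M a q₀ s₀ N + s₀.length) ∧
        c * Real.log N ≤ (∑ n ∈ (range N).filter (fun n => φ (a (n + 1)) ≠ f (n + 1)), 1 / ((n : ℝ) + 1)) +
          logErrors M a q₀ s₀ N + s₀.length) ∧
    (∀ f : ℕ → ℤ, IsMult f → (∀ m n : ℕ, 1 ≤ m → 1 ≤ n → f (m * n) = f m * f n) → Aperiodic f →
      ∃ (c : ℝ) (N₀ : ℕ), 0 < c ∧
      ∀ a : ℕ → ℤ, (∀ n, 0 ≤ a n ∧ a n < B) → ∀ (φ : ℤ → ℤ) (q₀ : Q) (s₀ : List Γ) (N : ℕ), N₀ ≤ N →
        c * N ≤ ((range N).filter fun n => φ (a (n + 1)) ≠ f (n + 1)).card +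
          errors M a q₀ s₀ N + s₀.length) := by
  obtain ⟨K, ρ, hρ, hT⟩ := Pool.Agent.U496.PS.transfer M B
  have hK : (0 : ℝ) < (K : ℝ) + 1 := by positivity
  -- from changes to errors
  have fin : ∀ (x T D : ℝ) (b : ℝ), 0 ≤ D → 0 < b → b * x ≤ T → T ≤ K * (D + 1) → 2 * (K + 1) ≤ b * x →
      b / (2 * (K + 1)) * x ≤ D := by
    intro x T D b hD hb h1 h2 h3
    have h4 : b * x ≤ (K + 1) * (D + 1) := by nlinarith
    rw [div_mul_eq_mul_div, div_le_iff₀ (by positivity)]
    nlinarith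
  constructor
  · obtain ⟨c, hc0, hc1, hgap⟩ := gap
    refine ⟨c / 4 / (2 * (K + 1)), by positivity, fun f hf ha => ?_⟩
    obtain ⟨E, N₀, hE, h1⟩ := hgap f hf ha ρ hρ
    obtain ⟨N₁, hN₁⟩ := exists_nat_ge (2 * (K + 1) / (c / 4))
    obtain ⟨N₂, hN₂⟩ := exists_nat_ge (Real.exp (2 * (K + 1) / (c / 4)))
    refine ⟨E, N₀ + N₁ + N₂, hE, fun a hab φ q₀ s₀ N hN => ?_⟩
    obtain ⟨h2, h3⟩ := h1 N (by omega)
    obtain ⟨h4, h5⟩ := hT a hab φ f q₀ s₀ N
    constructor
    · intro hNE
      have h6 := Pool.Agent.U496.PS.changes_of_corr f hf.1 ρ N c (h2 hNE)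
      have hx : 2 * ((K : ℝ) + 1) ≤ c / 4 * N := by
        have h7 : (N₁ : ℝ) ≤ N := by exact_mod_cast (by omega : N₁ ≤ N)
        have h8 := hN₁.trans h7
        rw [div_le_iff₀ (by positivity)] at h8
        linarith
      have hN0 : (0 : ℝ) ≤ N := Nat.cast_nonneg N
      refine fin N _ _ (c / 4) (by positivity) (by positivity) (le_trans (by nlinarith) h6) ?_ hx
      refine h4.trans (le_of_eq ?_)
      ring_nf
    · have h6 := Pool.Agent.U496.PS.log_changes_of_corr f hf.1 ρ N c (c / 2) hc0.le h3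
      have hx : 2 * ((K : ℝ) + 1) ≤ c / 4 * Real.log N := by
        have h7 : (N₂ : ℝ) ≤ N := by exact_mod_cast (by omega : N₂ ≤ N)
        have h8 := hN₂.trans h7
        have h9 := Real.log_le_log (Real.exp_pos _) h8
        rw [Real.log_exp, div_le_iff₀ (by positivity)] at h9
        linarith
      have hL : 0 ≤ ∑ n ∈ (range N).filter (fun n => φ (a (n + 1)) ≠ f (n + 1)), 1 / ((n : ℝ) + 1) := by positivity
      have hL2 : 0 ≤ logErrors M a q₀ s₀ N := by
        unfold logErrors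
        positivity
      refine fin (Real.log N) _ _ (c / 4) (by positivity) (by positivity) (le_trans (le_of_eq (by ring)) h6) ?_ hx
      refine h5.trans (le_of_eq ?_)
      unfold lcard
      ring_nf
  · intro f hf hcm ha
    have hCM : Pool.Agent.Y872.L.CM (ext f) := by
      refine ⟨by simp [ext], ?_, fun m n => ?_, fun n hn => ?_⟩
      · rw [ext_pos f le_rfl]
        have h1 := hcm 1 1 le_rfl le_rfl
        rw [mul_one] at h1
        rcases hf.1 1 le_rfl with h | h
        · exact h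
        · rw [h] at h1
          norm_num at h1
      · rcases Nat.eq_zero_or_pos m with hm | hm
        · rw [hm]
          simp [ext]
        · rcases Nat.eq_zero_or_pos n with hn | hn
          · rw [hn]
            simp [ext]
          · rw [ext_pos f (Nat.mul_pos hm hn), ext_pos f hm, ext_pos f hn, hcm m n hm hn]
      · rw [ext_pos f hn]
        exact hf.1 n hn
    have hnp := Pool.Agent.R512.G.nonPret_of hCM (noReal ha)
    obtain ⟨δ, hδ, N₀, h1⟩ := Pool.Agent.U488.HP.patterns hCM hnp 0 ρ (by omega)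
    obtain ⟨N₁, hN₁⟩ := exists_nat_ge (2 * (K + 1) / (δ / 2))
    refine ⟨δ / 2 / (2 * (K + 1)), N₀ + N₁, by positivity, fun a hab φ q₀ s₀ N hN => ?_⟩
    have h2 := (h1 N (by omega)).1.2
    simp only [add_zero] at h2
    rw [sum_ext] at h2
    obtain ⟨h4, -⟩ := hT a hab φ f q₀ s₀ N
    have h6 := Pool.Agent.U496.PS.changes_of_corr f hf.1 ρ N δ h2
    have hx : 2 * ((K : ℝ) + 1) ≤ δ / 2 * N := by
      have h7 : (N₁ : ℝ) ≤ N := by exact_mod_cast (by omega : N₁ ≤ N)
      have h8 := hN₁.trans h7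
      rw [div_le_iff₀ (by positivity)] at h8
      linarith
    refine fin N _ _ (δ / 2) (by positivity) (by positivity) h6 ?_ hx
    refine h4.trans (le_of_eq ?_)
    ring_nf

end Pool.Agent.Results.MP_4a7640_nt.PushdownErrorRates
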