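import Pool.Agent.U463.RS.LMain

/-!
# The sets of primes on which random sign changes produce a Bernoulli Furstenberg system which is
independent of everything else: logarithmic averages

Let `g` be a completely multiplicative function with values `±1` and `Q` a set of primes.  A
modification of `g` on `Q` is a completely multiplicative function with values `±1` which agrees
with `g` at all primes outside `Q`.  `mass Q x` is the sum of `1 / q` over the members `q` of `Q`
with `log log log x < q ≤ x` (logarithms to base 2, rounded down).  The following are equivalent: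

(1) `mass Q x → ∞` as `x → ∞`;

(2) for every bounded complex sequence `v` some modification `f` of `g` on `Q` satisfies
`∑_{n ≤ x} v(n) f(n) / n = o(log x)`;

(3) for every bounded complex sequence `v` almost every modification `f` of `g` on `Q` satisfies
`∑_{n ≤ x} v(n) f(n) / n = o(log x)`;

(4) for every countable family of bounded complex sequences `v_s`, almost every modification `f` of
`g` on `Q` takes every pattern `t` of signs on every finite set `H` of shifts with logarithmic
density `2^(-|H|)`, relative to each weight `v_s`: the Furstenberg system of `f` is unique, it is the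
Bernoulli system of a fair coin, and it is independent of every (joint) Furstenberg system of the
members of the given family;

(5) for every countable family of bounded complex sequences `v_s` almost every modification `f` of
`g` on `Q` satisfies `∑_{n ≤ x} v_s(n) ∏ f(a_i n + b_i) / n = o(log x)` for all `s` and all nonempty
systems of pairwise non-proportional linear forms `a_i n + b_i`.

For instance `Q` is admissible if the sum of `1 / q` over the `q ∈ Q`, `q ≤ x`, exceeds the five
times iterated logarithm of `x` by an amount which tends to infinity.  Since (1) does not mention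
`g`, the statements hold for one `g` if and only if they hold for all `g`.

Proof of (1) → (5): the dyadic block `[2^j, 2^(j+1))`, `2^(i-D) ≤ j < 2^(i+1)`, is treated with the
primes of `Q` in `(K log i, 2^(j/4)]`: by bounded differences and the second moment of the number of
the primes which divide exactly once, its logarithmic sum is large with probability at most
`2 / i^2`. By Markov's inequality and the lemma of Borel and Cantelli only few of the blocks up to
`2^(i+1)` are bad. Proof of (2) → (1): if the mass in `(log log log x, x]` is at most `C` for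
arbitrarily large `x`, then every long interval `[2^a, 2^(R a))` up to `x` contains a positive
(logarithmic) proportion of integers free of the primes of `Q` in `(log log log x, x]`, and there
are more such intervals, about `log log x`, than choices of signs at the primes
`≤ log log log x`; one `v` correlates with all modifications.
-/

set_option autoImplicit false

namespace Pool.Agent.Results.MP_4a7640_nt.SharpPrimeSetsLog

open Filter MeasureTheory Finset
open Pool.Agent.H220M (coins IsModif)

open Classical in
/-- the sum of `1 / q` over the `q ∈ Q` with `log log log x < q ≤ x` -/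
noncomputable def mass (Q : Set ℕ) (x : ℕ) : ℝ :=
  ∑ q ∈ (Icc 1 x).filter (fun q => q ∈ Q ∧ Nat.log 2 (Nat.log 2 (Nat.log 2 x)) < q), (1 : ℝ) / q

open Classical in
/-- **the sharp criterion** for logarithmic averages -/
theorem result (g : ℕ →*₀ ℤ) (hg : ∀ p : ℕ, p.Prime → g p = 1 ∨ g p = -1)
    (Q : Set ℕ) (hQ : ∀ q ∈ Q, q.Prime) : List.TFAE [
      Tendsto (mass Q) atTop atTop,
      ∀ v : ℕ → ℂ, (∀ n, ‖v n‖ ≤ 1) → ∃ f : ℕ →*₀ ℤ, (∀ p : ℕ, p.Prime → f p = 1 ∨ f p = -1) ∧
        (∀ p : ℕ, p.Prime → p ∉ Q → f p = g p) ∧
        Tendsto (fun x : ℕ => (∑ n ∈ Icc 1 x, v n * (f n : ℂ) / n) / (Real.log x : ℂ))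
          atTop (nhds 0),
      ∀ v : ℕ → ℂ, (∀ n, ‖v n‖ ≤ 1) → ∀ᵐ ω ∂coins, ∀ f : ℕ →*₀ ℤ, IsModif g Q ω f →
        Tendsto (fun x : ℕ => (∑ n ∈ Icc 1 x, v n * (f n : ℂ) / n) / (Real.log x : ℂ))
          atTop (nhds 0),
      ∀ v : ℕ → ℕ → ℂ, (∀ s n, ‖v s n‖ ≤ 1) → ∀ᵐ ω ∂coins, ∀ f : ℕ →*₀ ℤ, IsModif g Q ω f →
        ∀ (s : ℕ) (H : Finset ℕ) (t : ℕ → ℤ), (∀ h ∈ H, t h = 1 ∨ t h = -1) →
          Tendsto (fun x : ℕ => (∑ n ∈ (Icc 1 x).filter (fun n => ∀ h ∈ H, f (n + h) = t h),
            v s n / n - (1 / 2) ^ H.card * ∑ n ∈ Icc 1 x, v s n / n) / (Real.log x : ℂ))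
            atTop (nhds 0),
      ∀ v : ℕ → ℕ → ℂ, (∀ s n, ‖v s n‖ ≤ 1) → ∀ᵐ ω ∂coins, ∀ f : ℕ →*₀ ℤ, IsModif g Q ω f →
        ∀ (s k : ℕ) (a b : Fin k → ℕ), 1 ≤ k → (∀ i, 1 ≤ a i) →
          (∀ i j, i ≠ j → a i * b j ≠ a j * b i) →
          Tendsto (fun x : ℕ => (∑ n ∈ Icc 1 x, v s n * (∏ i, (f (a i * n + b i) : ℂ)) / n) /
            (Real.log x : ℂ)) atTop (nhds 0)] :=
  Pool.Agent.U463.RS.lmain_tfae g hg Q hQ

end Pool.Agent.Results.MP_4a7640_nt.SharpPrimeSetsLog
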