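import Pool.Agent.U463.RB.NPat

/-!
# Fair coins for all multiplicative functions near random multiplicative functions

Let `ι` be a countable set and let `e_i(p)`, `i ∈ ι`, be random signs such that the sign vectors
`(e_i(p))_i` at the different primes `p` are independent (any biases, any dependence between the
coordinates). Let `g_i` be arbitrary multiplicative functions with values `1` and `-1`, and let `f_i`
be the multiplicative function `g_i` with the sign changes `e_i(p)` at the primes. Assume that for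
every finite nonempty set `B` of indices the sum of `(1 - |E ∏_{i ∈ B} e_i(p)|) / p` over the primes
`p ≤ x < p ^ D` is at least `K` for all large `x`, if `D ≥ D(B, K)`; by the theorem of Mertens this is
the case if `|E ∏_{i ∈ B} e_i(p)|` stays away from `1`.

Let `V_1, V_2, …` be classes of sequences in the unit disc whose covering numbers at `x`, in the
normalized `ℓ^1` distance on `[1, x]`, are at most `exp (x ^ o(1))` (for instance single sequences).

Then almost surely the following holds for ALL finite families `A_1, …, A_ℓ` of finite sets of indices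
which are independent (every nonempty subfamily has a nonempty symmetric difference), for ALL
multiplicative functions `F_1, …, F_ℓ` with values `1` and `-1` such that `F_j` agrees with
`∏_{i ∈ A_j} f_i` and a Dirichlet character at primes of relative logarithmic density one, and for all
weights `v` of the classes `V_s`: relative to `v` and in natural density, the signs `F_j(n + h)`,
`j ≤ ℓ`, `h ≥ 0`, are independent fair coins. The `F_j` and `v` are arbitrary, they may depend on the
random signs.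

Proof. In `[1, 2^(j+1)]` a function near a character is, up to few integers, determined by its signs
at the powers of the primes `p ≤ Y = 2^(j / 2E)`, which leaves `exp (Y j)` possibilities; the signs at
the primes of `(Y^2, 2^(j/4)]` make each weighted sum small with probability `1 - exp (- c Y^2)`.
-/

set_option autoImplicit false

namespace Pool.Agent.Results.MP_4a7640_nt.StableBernoulli

open Finset MeasureTheory ProbabilityTheory Filter

/-- multiplicative functions with values `1` and `-1` at the positive integers -/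
def MulSign (f : ℕ → ℝ) : Prop :=
  f 1 = 1 ∧ (∀ m n : ℕ, Nat.Coprime m n → f (m * n) = f m * f n) ∧
    ∀ n : ℕ, 1 ≤ n → f n = 1 ∨ f n = -1

/-- `g` with the sign changes `s p` at the primes: `n = ∏ p ^ k` goes to `g n * ∏ (s p) ^ k` -/
noncomputable def change (g s : ℕ → ℝ) (n : ℕ) : ℝ := g n * n.factorization.prod (fun p k => s p ^ k)

open Classical in
/-- `F` agrees with `f` and a Dirichlet character at primes of relative logarithmic density one -/
def NearTo (f F : ℕ → ℝ) : Prop :=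
  ∃ (q : ℕ) (χ : DirichletCharacter ℂ q), 1 ≤ q ∧
    Tendsto (fun X : ℕ => (∑ p ∈ (Icc 1 X).filter (fun p => p.Prime ∧
      (F p : ℂ) ≠ (f p : ℂ) * χ (p : ZMod q)), Real.log p / p) / Real.log X) atTop (nhds 0)

/-- a class of sequences in the unit disc with covering numbers `exp (x ^ o(1))` at `x` -/
def Thin (V : Set (ℕ → ℂ)) : Prop :=
  (∀ v ∈ V, ∀ n, ‖v n‖ ≤ 1) ∧ ∀ δ : ℝ, 0 < δ → ∀ D : ℕ, ∀ᶠ x : ℕ in atTop,
    ∃ C : Finset (ℕ → ℂ), Real.log C.card ^ D ≤ x ∧ (∀ w ∈ C, ∀ n, ‖w n‖ ≤ 1) ∧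
      ∀ v ∈ V, ∃ w ∈ C, ∑ n ∈ Icc 1 x, ‖v n - w n‖ ≤ δ * x

/-- the sum over the primes `p ≤ x < p ^ D` of `(1 - |E ∏_{i ∈ B} e i p|) / p` -/
noncomputable def window {Ω ι : Type} [MeasurableSpace Ω] (P : Measure Ω) (e : ι → ℕ → Ω → ℝ)
    (B : Finset ι) (D x : ℕ) : ℝ :=
  ∑ p ∈ (Icc 1 x).filter (fun p => p.Prime ∧ x < p ^ D), (1 - |∫ ω, ∏ i ∈ B, e i p ω ∂P|) / p

open Classical in
/-- relative to the weight `v` and in natural density, the signs `F j (n + h)` are independent fair
coins: for every finite set `Z` of pairs `(j, h)` and every choice `t` of signs the sum of `v n` over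
the `n ≤ x` with `F j (n + h) = t (j, h)` on `Z` is `2 ^ (-|Z|)` times the full sum up to `o(x)` -/
def FairCoins {ℓ : ℕ} (F : Fin ℓ → ℕ → ℝ) (v : ℕ → ℂ) : Prop :=
  ∀ (Z : Finset (Fin ℓ × ℕ)) (t : Fin ℓ × ℕ → ℝ), (∀ z ∈ Z, t z = 1 ∨ t z = -1) →
    Tendsto (fun x : ℕ => (∑ n ∈ (Icc 1 x).filter (fun n => ∀ z ∈ Z, F z.1 (n + z.2) = t z), v n -
      (1 / 2) ^ Z.card * ∑ n ∈ Icc 1 x, v n) / (x : ℂ)) atTop (nhds 0)

open Classical in
/-- **fair coins, for all functions near random functions at once** -/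
theorem result {Ω ι : Type} [MeasurableSpace Ω] [Countable ι] (P : Measure Ω)
    [IsProbabilityMeasure P] (e : ι → ℕ → Ω → ℝ) (hm : ∀ i p, Measurable (e i p))
    (he : ∀ i p ω, e i p ω = 1 ∨ e i p ω = -1)
    (hind : iIndepFun (fun (p : ℕ) (ω : Ω) (i : ι) => e i p ω) P)
    (hW : ∀ B : Finset ι, B.Nonempty → ∀ K : ℝ, ∃ D : ℕ, ∀ᶠ x : ℕ in atTop,
      K ≤ window P e B D x)
    (g : ι → ℕ → ℝ) (hg : ∀ i, MulSign (g i)) (V : ℕ → Set (ℕ → ℂ)) (hV : ∀ s, Thin (V s)) :
    ∀ᵐ ω ∂P, ∀ (ℓ : ℕ) (A : Fin ℓ → Finset ι),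
      (∀ S : Finset (Fin ℓ), S.Nonempty → ∃ i, Odd (S.filter (fun j => i ∈ A j)).card) →
      ∀ F : Fin ℓ → ℕ → ℝ, (∀ j, MulSign (F j)) →
      (∀ j, NearTo (fun n => ∏ i ∈ A j, change (g i) (fun p => e i p ω) n) (F j)) →
      ∀ s, ∀ v ∈ V s, FairCoins F v := by
  have h1 := Pool.Agent.U463.RB.fair (P := P) hm he hind (by
      intro B hB K
      obtain ⟨D, hD⟩ := hW B hB K
      refine ⟨D, hD.mono fun x hx => ?_⟩
      unfold window at hx
      exact hx) (g := g) (fun i => ⟨(hg i).1, (hg i).2.1, (hg i).2.2⟩) (V := V) (fun s => hV s)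
  filter_upwards [h1] with ω hω ℓ A hA F hF hnear
  choose q χ hq hlim using hnear
  obtain ⟨f, hf⟩ : ∃ f : ι → ℕ → ℝ, f = fun i => change (g i) (fun p => e i p ω) := ⟨_, rfl⟩
  have hlim' : ∀ j, Tendsto (fun X : ℕ => (∑ p ∈ (Icc 1 X).filter (fun p => p.Prime ∧
      (F j p : ℂ) ≠ ((∏ i ∈ A j, f i p : ℝ) : ℂ) * χ j (p : ZMod (q j))), Real.log p / p) /
        Real.log X) atTop (nhds 0) := by
    rw [hf]
    exact hlim
  have hfS : ∀ i, Pool.Agent.W257.FS.SignMul (f i) := by
    intro i
    rw [hf]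
    exact Pool.Agent.TH573.JF.rf_signMul (g := g i) (e := fun p => e i p ω)
      ⟨(hg i).1, (hg i).2.1, (hg i).2.2⟩ (fun p => he i p ω)
  have hFS : ∀ j, Pool.Agent.W257.FS.SignMul (F j) := fun j =>
    ⟨(hF j).1, (hF j).2.1, (hF j).2.2⟩
  have hprod : ∀ j, Pool.Agent.W257.FS.SignMul (fun n => ∏ i ∈ A j, f i n) := fun j =>
    Pool.Agent.TH573.JF.signMul_prod (A j) f hfS
  have hsq : ∀ j n, 1 ≤ n → (∏ i ∈ A j, f i n) * (∏ i ∈ A j, f i n) = 1 := by
    intro j n hn
    rcases (hprod j).val n hn with h | h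
    · have h' : ∏ i ∈ A j, f i n = 1 := h
      rw [h']; norm_num
    · have h' : ∏ i ∈ A j, f i n = -1 := h
      rw [h']; norm_num
  have hB : ∀ S : Finset (Fin ℓ), S.Nonempty → (Pool.Agent.TH573.JF.BB A S).Nonempty := by
    intro S hS
    obtain ⟨i, hi⟩ := hA S hS
    refine ⟨i, ?_⟩
    unfold Pool.Agent.TH573.JF.BB
    rw [mem_filter, mem_biUnion]
    refine ⟨?_, hi⟩
    obtain ⟨k, hk⟩ := card_pos.1 hi.pos
    exact ⟨k, mem_univ _, (mem_filter.1 hk).2⟩
  have key := hω ℓ A hB (fun j n => (∏ i ∈ A j, f i n) * F j n)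
    (fun j => Pool.Agent.TH573.JF.signMul_mul (hprod j) (hFS j)) (fun j => ?_) F
    (fun j n hn => ?_)
  · exact key
  · refine ⟨q j, χ j, hq j, (hlim' j).congr fun X => ?_⟩
    congr 1
    refine sum_congr ?_ fun _ _ => rfl
    ext p
    simp only [mem_filter, mem_Icc]
    refine and_congr_right fun hp => and_congr_right fun _ => not_congr ?_
    have h2 : ((∏ i ∈ A j, f i p : ℝ) : ℂ) * ((∏ i ∈ A j, f i p : ℝ) : ℂ) = 1 := by
      rw [← Complex.ofReal_mul, hsq j p hp.1, Complex.ofReal_one]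
    constructor
    · intro h
      rw [Complex.ofReal_mul, h, ← mul_assoc, h2, one_mul]
    · intro h
      rw [Complex.ofReal_mul] at h
      calc (F j p : ℂ) = (((∏ i ∈ A j, f i p : ℝ) : ℂ) * ((∏ i ∈ A j, f i p : ℝ) : ℂ)) * F j p := by
            rw [h2, one_mul]
        _ = ((∏ i ∈ A j, f i p : ℝ) : ℂ) * (((∏ i ∈ A j, f i p : ℝ) : ℂ) * F j p) := by ring
        _ = _ := by rw [h]
  · have h3 : (fun i => Pool.Agent.TH573.JF.rf (g i) (fun p => e i p ω)) = f := by
      rw [hf]
      rfl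
    show F j n = (∏ i ∈ A j, Pool.Agent.TH573.JF.rf (g i) (fun p => e i p ω) n) *
      ((∏ i ∈ A j, f i n) * F j n)
    have h4 : ∏ i ∈ A j, Pool.Agent.TH573.JF.rf (g i) (fun p => e i p ω) n =
        ∏ i ∈ A j, f i n := prod_congr rfl fun i _ => congrFun (congrFun h3 i) n
    rw [h4, ← mul_assoc, hsq j n hn, one_mul]

end Pool.Agent.Results.MP_4a7640_nt.StableBernoulli
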